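import Pool.Agent.H8.BV.Targets

/-!
# LIX: germs of curves can be lifted through an iterate (helper52)
-/

set_option autoImplicit false

open MvPolynomial
open Pool.Agent.H12.ZD (pmap)
open Pool.Agent.H18.HIT Pool.Agent.H18.HX Pool.Agent.H18.VZ
open Pool.Agent.H8.BIG (KF line)
open Pool.Agent.H8.BV

namespace Pool.Agent.H52.BV

theorem aeval_aeval_germ {M : ℕ} {k A : Type} [Field k] [CommRing A] [Algebra k A]
    (γ : Fin M → A) (T : Tup M k) (q : Po M k) :
    aeval γ (aeval T q) = aeval (fun i => aeval γ (T i)) q := by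
  have h : (aeval γ : Po M k →ₐ[k] A).comp (aeval T : Po M k →ₐ[k] Po M k) =
      aeval (fun i => aeval γ (T i)) := by
    apply algHom_ext
    intro i
    rw [AlgHom.comp_apply, aeval_X, aeval_X]
  exact DFunLike.congr_fun h q

theorem pf_LIX (hLSX : T_LSX) : T_LIX := by
  intro N n
  induction n with
  | zero =>
    intro k K _ _ _ P T x γ _ _ _ hγ hc
    refine ⟨γ, hc, hγ, fun i => ?_⟩
    rw [it_zero]
    exact aeval_X γ i
  | succ n ih =>
    intro k K _ _ _ P T x γ hP hx hj hγ hc
    obtain ⟨R, hR⟩ := hP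
    have hx' : eval (pmap T x) P = 0 := by
      rw [← eval_aeval, hR, map_mul, hx, zero_mul]
    obtain ⟨γ₁, h1, h2, h3⟩ := ih k K P T (pmap T x) γ ⟨R, hR⟩ hx'
      (fun j hjn => by
        have h := hj (j + 1) (by omega)
        rwa [Function.iterate_succ_apply] at h)
      hγ (fun i => by
        have h := hc i
        rwa [Function.iterate_succ_apply] at h)
    have h0 := (hj 0 (by omega)).1
    have h1' := (hj 1 (by omega)).2
    rw [Function.iterate_zero, id] at h0
    rw [Function.iterate_one] at h1'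
    obtain ⟨γ', h4, h5, h6⟩ := hLSX N k K P T x γ₁ ⟨R, hR⟩ hx h0 h1' h2 h1
    refine ⟨γ', h4, h5, fun i => ?_⟩
    rw [it_succ']
    have h7 : comp (it T n) T i = aeval T (it T n i) := rfl
    rw [h7, aeval_aeval_germ, ← h3 i]
    congr 2
    funext j
    exact h6 j

end Pool.Agent.H52.BV
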