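import Pool.Agent.H8.BV.Targets

/-!
# NRV: norms of functions which do not vanish on a totally invariant subvariety (helper52)

The proof of `Pool/Agent/H46/BIG/NRM.lean` (helper46), modulo `P`.
-/

set_option autoImplicit false

open MvPolynomial
open Pool.Agent.H12.ZD (pmap)
open Pool.Agent.H18.HIT Pool.Agent.H18.HX Pool.Agent.H18.VZ
open Pool.Agent.H8.BIG (KF line)
open Pool.Agent.H8.BV

namespace Pool.Agent.H52.BV

theorem pf_NRV : T_NRV := by
  classical
  intro N E k _ P T θ Δ V hB hV hPV hT hΔ q hq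
  have hE : 0 < E := hB.pos
  -- a common denominator
  have hbas : ∀ i : Fin E, ∃ (M : ℕ) (c : Fin E → Po (N + 1) k),
      P ∣ aeval T Δ ^ M * (q * θ ^ (i : ℕ)) - ∑ j : Fin E, θ ^ (j : ℕ) * aeval T (c j) :=
    fun i => hB.gen (q * θ ^ (i : ℕ))
  choose M c hc using hbas
  set K : ℕ := ∑ i, M i with hK
  have hMK : ∀ i, M i ≤ K := fun i =>
    Finset.single_le_sum (f := M) (fun _ _ => Nat.zero_le _) (Finset.mem_univ i)
  let a : Matrix (Fin E) (Fin E) (Po (N + 1) k) := fun i j => Δ ^ (K - M i) * c i j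
  set s : Po (N + 1) k := aeval T Δ ^ K * q with hs
  have ha : ∀ i : Fin E, P ∣ s * θ ^ (i : ℕ) - ∑ j : Fin E, θ ^ (j : ℕ) * aeval T (a i j) := by
    intro i
    have h1 : s * θ ^ (i : ℕ) = aeval T Δ ^ (K - M i) * (aeval T Δ ^ M i * (q * θ ^ (i : ℕ))) := by
      rw [hs]
      have : aeval T Δ ^ K = aeval T Δ ^ (K - M i) * aeval T Δ ^ M i := by
        rw [← pow_add, Nat.sub_add_cancel (hMK i)]
      rw [this]; ring
    have h2 : ∑ j : Fin E, θ ^ (j : ℕ) * aeval T (a i j) =
        aeval T Δ ^ (K - M i) * ∑ j : Fin E, θ ^ (j : ℕ) * aeval T (c i j) := by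
      rw [Finset.mul_sum]
      apply Finset.sum_congr rfl
      intro j _
      simp only [a, map_mul, map_pow]
      ring
    rw [h1, h2, ← mul_sub]
    exact dvd_mul_of_dvd_right (hc i) _
  have hTΔ : aeval T Δ ∉ V := by
    intro h1
    have h2 := hT.ind (Pi.single ⟨0, hE⟩ Δ) (by
      rw [Finset.sum_eq_single (⟨0, hE⟩ : Fin E)]
      · rw [Pi.single_eq_same]
        exact V.mul_mem_left _ h1
      · intro j _ hj
        rw [Pi.single_eq_of_ne hj, map_zero, mul_zero]
      · intro h
        exact absurd (Finset.mem_univ _) h) ⟨0, hE⟩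
    rw [Pi.single_eq_same] at h2
    exact hΔ h2
  have hsV : s ∉ V := by
    intro h1
    rcases hV.mem_or_mem h1 with h2 | h2
    · exact hTΔ (hV.mem_of_pow_mem _ h2)
    · exact hq h2
  have key : a.det ∉ V := by
    -- the determinant is not in `V`
    intro hdet
    have := hV
    have h1 : (a.map (Ideal.Quotient.mk V)).det = 0 := by
      rw [← RingHom.mapMatrix_apply, ← RingHom.map_det]
      exact Ideal.Quotient.eq_zero_iff_mem.2 hdet
    obtain ⟨w, hw0, hw⟩ := Matrix.exists_vecMul_eq_zero_iff.2 h1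
    choose v hv using fun i => Ideal.Quotient.mk_surjective (w i)
    have h2 : ∀ j, ∑ i, v i * a i j ∈ V := by
      intro j
      have h3 := congrFun hw j
      rw [← Ideal.Quotient.eq_zero_iff_mem, map_sum]
      simp only [Matrix.vecMul, dotProduct, Matrix.map_apply, Pi.zero_apply] at h3
      rw [← h3]
      apply Finset.sum_congr rfl
      intro i _
      rw [map_mul, hv i]
    have h4 : s * ∑ i : Fin E, θ ^ (i : ℕ) * aeval T (v i) ∈ V := by
      have h5 : s * ∑ i : Fin E, θ ^ (i : ℕ) * aeval T (v i)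
          = (∑ i : Fin E, (s * θ ^ (i : ℕ) - ∑ j : Fin E, θ ^ (j : ℕ) * aeval T (a i j)) *
              aeval T (v i)) + ∑ j : Fin E, θ ^ (j : ℕ) * aeval T (∑ i, v i * a i j) := by
        have h6 : ∑ j : Fin E, θ ^ (j : ℕ) * aeval T (∑ i, v i * a i j) =
            ∑ i : Fin E, (∑ j : Fin E, θ ^ (j : ℕ) * aeval T (a i j)) * aeval T (v i) := by
          simp only [map_sum, Finset.mul_sum, Finset.sum_mul, map_mul]
          rw [Finset.sum_comm]
          apply Finset.sum_congr rfl
          intro i _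
          apply Finset.sum_congr rfl
          intro j _
          ring
        rw [h6, ← Finset.sum_add_distrib, Finset.mul_sum]
        apply Finset.sum_congr rfl
        intro i _
        ring
      rw [h5]
      refine V.add_mem (V.sum_mem fun i _ => V.mul_mem_right _ (V.mem_of_dvd (ha i) hPV))
        (V.sum_mem (fun j _ => V.mul_mem_left _ (hT.inv _ (h2 j))))
    have h7 := (hV.mem_or_mem h4).resolve_left hsV
    have h8 := hT.ind v h7
    apply hw0
    funext i
    rw [← hv i]
    exact Ideal.Quotient.eq_zero_iff_mem.2 (h8 i)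
  refine ⟨a.det, ?_⟩
  set A' : Matrix (Fin E) (Fin E) (Po (N + 1) k) := a.map (aeval T) with hA'
  -- modulo `P` the vector `θ ^ j` is an eigenvector
  have h1 : P ∣ (Matrix.scalar (Fin E) s - A').det := by
    set B : Matrix (Fin E) (Fin E) (Po (N + 1) k) := Matrix.scalar (Fin E) s - A' with hBdef
    have h2 : B.adjugate.mulVec (B.mulVec (fun j : Fin E => θ ^ (j : ℕ))) =
        fun j : Fin E => B.det * θ ^ (j : ℕ) := by
      rw [Matrix.mulVec_mulVec, Matrix.adjugate_mul, Matrix.smul_mulVec, Matrix.one_mulVec]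
      rfl
    have h3 : ∀ i, P ∣ B.mulVec (fun j : Fin E => θ ^ (j : ℕ)) i := by
      intro i
      have h4 : B.mulVec (fun j : Fin E => θ ^ (j : ℕ)) i =
          s * θ ^ (i : ℕ) - ∑ j : Fin E, θ ^ (j : ℕ) * aeval T (a i j) := by
        rw [hBdef, Matrix.sub_mulVec]
        simp only [Pi.sub_apply]
        congr 1
        · simp [Matrix.scalar_apply, Matrix.mulVec_diagonal]
        · simp only [Matrix.mulVec, dotProduct, hA', Matrix.map_apply]
          apply Finset.sum_congr rfl
          intro j _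
          ring
      rw [h4]
      exact ha i
    have h5 := congrFun h2 ⟨0, hE⟩
    simp only [pow_zero, mul_one] at h5
    rw [← h5]
    simp only [Matrix.mulVec, dotProduct]
    refine Finset.dvd_sum fun i _ => dvd_mul_of_dvd_right ?_ _
    have h6 := h3 i
    simp only [Matrix.mulVec, dotProduct] at h6
    exact h6
  have h2 : s ∣ A'.det - (-1) ^ E * (Matrix.scalar (Fin E) s - A').det := by
    have h3 := Polynomial.sub_dvd_eval_sub s 0 A'.charpoly
    rw [sub_zero, Matrix.eval_charpoly, Matrix.eval_charpoly] at h3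
    have h4 : (Matrix.scalar (Fin E) (0 : Po (N + 1) k) - A').det = (-1) ^ E * A'.det := by
      rw [map_zero, zero_sub, Matrix.det_neg, Fintype.card_fin]
    rw [h4] at h3
    have h5 : A'.det - (-1) ^ E * (Matrix.scalar (Fin E) s - A').det =
        -((-1) ^ E * ((Matrix.scalar (Fin E) s - A').det - (-1) ^ E * A'.det)) := by
      have h6 : ((-1 : Po (N + 1) k) ^ E) * (-1) ^ E = 1 := by
        rw [← mul_pow]; simp
      linear_combination (-A'.det) * h6
    rw [h5, dvd_neg]
    exact dvd_mul_of_dvd_right h3 _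
  have h6 : A'.det = aeval T a.det := by
    rw [hA', AlgHom.map_det]
    rfl
  obtain ⟨u, hu⟩ := h1
  obtain ⟨w, hw⟩ := h2
  refine ⟨aeval T Δ ^ K * w, key, ?_⟩
  refine ⟨(-1) ^ E * u, ?_⟩
  rw [← h6]
  rw [hu] at hw
  rw [hs] at hw
  linear_combination hw

end Pool.Agent.H52.BV
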